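import Pool.Graph.R_pool_sql_team_seeded_ab47071d.TH2.BO.Final
set_option autoImplicit false

/-!
# Bland's rule on the products

`Bl idx out B v`: the path of Bland's rule (the improving direction with the least index) from `v` reaches
the maximum in at most `B` steps.
-/

namespace Pool.Agent.H73.BL

open Finset Pool.Agent.TH2.BO

section
variable {D : Type} [DecidableEq D]

/-- Bland's rule reaches the maximum from `v` in at most `B` steps -/
def Bl (idx : D → ℕ) (out : (D → Bool) → Finset D) : ℕ → (D → Bool) → Prop
  | 0, v => out v = ∅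
  | B + 1, v => out v = ∅ ∨
      ∃ i ∈ out v, (∀ j ∈ out v, idx i ≤ idx j) ∧ Bl idx out B (fl v i)

theorem bl_sink {idx : D → ℕ} {out : (D → Bool) → Finset D} {v : D → Bool} (h : out v = ∅)
    (B : ℕ) : Bl idx out B v := by
  cases B with
  | zero => exact h
  | succ B => exact Or.inl h

theorem bl_succ {idx : D → ℕ} {out : (D → Bool) → Finset D} {B : ℕ} {v : D → Bool}
    (h : Bl idx out B v) : Bl idx out (B + 1) v := by
  induction B generalizing v with
  | zero => exact Or.inl h
  | succ B ih =>
    rcases h with h | ⟨i, h1, h2, h3⟩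
    · exact Or.inl h
    · exact Or.inr ⟨i, h1, h2, ih h3⟩

theorem bl_mono {idx : D → ℕ} {out : (D → Bool) → Finset D} {B B' : ℕ} (hB : B ≤ B')
    {v : D → Bool} (h : Bl idx out B v) : Bl idx out B' v := by
  induction B', hB using Nat.le_induction with
  | base => exact h
  | succ B' _ ih => exact bl_succ ih

/-- the path as a sequence -/
theorem bl_path {idx : D → ℕ} {out : (D → Bool) → Finset D} {B : ℕ} {v : D → Bool}
    (h : Bl idx out B v) : ∃ (L : ℕ) (w : ℕ → (D → Bool)), L ≤ B ∧ w 0 = v ∧
      (∀ t < L, ∃ i ∈ out (w t), (∀ j ∈ out (w t), idx i ≤ idx j) ∧ w (t + 1) = fl (w t) i) ∧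
      out (w L) = ∅ := by
  induction B generalizing v with
  | zero => exact ⟨0, fun _ => v, le_rfl, rfl, fun t ht => absurd ht (Nat.not_lt_zero _), h⟩
  | succ B ih =>
    rcases h with h | ⟨i, h1, h2, h3⟩
    · exact ⟨0, fun _ => v, Nat.zero_le _, rfl, fun t ht => absurd ht (Nat.not_lt_zero _), h⟩
    · obtain ⟨L, w, g1, g2, g3, g4⟩ := ih h3
      refine ⟨L + 1, fun t => Nat.casesOn t v w, by omega, rfl, ?_, g4⟩
      intro t ht
      cases t with
      | zero => exact ⟨i, h1, h2, g2⟩
      | succ t => exact g3 t (by omega)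

theorem bl_xo [Fintype D] {idx : D → ℕ} {o : (D → Bool) → Finset D} (a : D → Bool) {B : ℕ}
    {v : D → Bool} (h : Bl idx o B (xo a v)) : Bl idx (fun v => o (xo a v)) B v := by
  induction B generalizing v with
  | zero => exact h
  | succ B ih =>
    rcases h with h | ⟨i, h1, h2, h3⟩
    · exact Or.inl h
    · refine Or.inr ⟨i, h1, h2, ih ?_⟩
      rw [xo_fl]
      exact h3

end

section base

/-- on the uniform orientation -/
theorem bl_up (d : ℕ) (v : Fin d → Bool) : Bl (fun i : Fin d => i.val) up d v := by
  have key : ∀ (c : ℕ) (v : Fin d → Bool), (up v).card ≤ c →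
      Bl (fun i : Fin d => i.val) up c v := by
    intro c
    induction c with
    | zero =>
      intro v hv
      exact card_eq_zero.1 (Nat.le_zero.1 hv)
    | succ c ih =>
      intro v hv
      by_cases h : up v = ∅
      · exact Or.inl h
      · obtain ⟨i, hi, hmin⟩ := (up v).exists_min_image (fun i : Fin d => i.val)
          (nonempty_iff_ne_empty.2 h)
        refine Or.inr ⟨i, hi, hmin, ih _ ?_⟩
        have h1 : up (fl v i) = (up v).erase i := by
          ext j
          rw [mem_erase]
          simp only [up, mem_filter, mem_univ, true_and] at hi ⊢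
          by_cases hj : j = i
          · subst hj
            simp [fl_same, hi]
          · simp [fl_ne _ hj, hj]
        rw [h1, card_erase_of_mem hi]
        omega
  exact key d v ((card_le_univ _).trans (by simp))

end base

section gadget
variable {X : Type} [Fintype X] [DecidableEq X]

open Classical in
/-- the potential of the gadget: zeros after the first one count two, ones count one -/
noncomputable def pot (κ : X → ℕ) (x : X → Bool) : ℕ :=
  ∑ j, if ∃ i, x i = true ∧ κ i ≤ κ j then (if x j = true then 1 else 2) else 0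

omit [DecidableEq X] in
theorem pot_le (κ : X → ℕ) (x : X → Bool) : pot κ x ≤ 2 * Fintype.card X := by
  classical
  unfold pot
  have h : ∀ j ∈ (univ : Finset X), (if ∃ i, x i = true ∧ κ i ≤ κ j then
      (if x j = true then 1 else 2) else 0) ≤ 2 := by
    intro j _
    split_ifs <;> omega
  refine (sum_le_sum h).trans ?_
  rw [sum_const, card_univ, smul_eq_mul]
  omega

theorem pot_step {κ : X → ℕ} (hκ : Function.Injective κ) {x : X → Bool} {i : X}
    (hi : i ∈ K κ x) : pot κ (fl x i) + 1 ≤ pot κ x := by
  classical
  unfold pot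
  rw [← add_sum_erase _ _ (mem_univ i), ← add_sum_erase (univ : Finset X) (fun j =>
    if ∃ i, x i = true ∧ κ i ≤ κ j then (if x j = true then 1 else 2) else 0) (mem_univ i)]
  rcases mem_K.1 hi with ⟨h1, h2⟩ | ⟨h1, j₀, h2, h3⟩
  · -- the first one is switched off
    have e1 : ¬ ∃ i', fl x i i' = true ∧ κ i' ≤ κ i := by
      rintro ⟨i', h4, h5⟩
      by_cases hii : i' = i
      · subst hii
        rw [fl_same, h1] at h4
        simp at h4
      · rw [fl_ne _ hii] at h4
        exact hii (hκ (le_antisymm h5 (h2 i' h4)))
    have e2 : ∃ i', x i' = true ∧ κ i' ≤ κ i := ⟨i, h1, le_rfl⟩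
    rw [if_neg e1, if_pos e2, if_pos h1]
    have e3 : ∑ j ∈ univ.erase i, (if ∃ i', fl x i i' = true ∧ κ i' ≤ κ j then
        (if fl x i j = true then 1 else 2) else 0) ≤
        ∑ j ∈ univ.erase i, (if ∃ i', x i' = true ∧ κ i' ≤ κ j then
        (if x j = true then 1 else 2) else 0) := by
      refine sum_le_sum fun j hj => ?_
      have hji : j ≠ i := ne_of_mem_erase hj
      rw [fl_ne _ hji]
      by_cases h4 : ∃ i', fl x i i' = true ∧ κ i' ≤ κ j
      · have h5 : ∃ i', x i' = true ∧ κ i' ≤ κ j := by
          obtain ⟨i', h5, h6⟩ := h4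
          have hii : i' ≠ i := by
            rintro rfl
            rw [fl_same, h1] at h5
            simp at h5
          exact ⟨i', by rwa [fl_ne _ hii] at h5, h6⟩
        rw [if_pos h4, if_pos h5]
      · rw [if_neg h4]
        exact Nat.zero_le _
    omega
  · -- a zero is switched on
    have e1 : ∃ i', fl x i i' = true ∧ κ i' ≤ κ i := ⟨i, by rw [fl_same, h1]; rfl, le_rfl⟩
    have e2 : ∃ i', x i' = true ∧ κ i' ≤ κ i := ⟨j₀, h2, h3.le⟩
    have e4 : fl x i i = true := by rw [fl_same, h1]; rfl
    have e5 : ¬ x i = true := by rw [h1]; simp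
    rw [if_pos e1, if_pos e2, if_pos e4, if_neg e5]
    have e3 : ∑ j ∈ univ.erase i, (if ∃ i', fl x i i' = true ∧ κ i' ≤ κ j then
        (if fl x i j = true then 1 else 2) else 0) ≤
        ∑ j ∈ univ.erase i, (if ∃ i', x i' = true ∧ κ i' ≤ κ j then
        (if x j = true then 1 else 2) else 0) := by
      refine sum_le_sum fun j hj => ?_
      have hji : j ≠ i := ne_of_mem_erase hj
      rw [fl_ne _ hji]
      by_cases h4 : ∃ i', fl x i i' = true ∧ κ i' ≤ κ j
      · have h5 : ∃ i', x i' = true ∧ κ i' ≤ κ j := by
          obtain ⟨i', h5, h6⟩ := h4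
          by_cases hii : i' = i
          · subst hii
            exact ⟨j₀, h2, h3.le.trans h6⟩
          · exact ⟨i', by rwa [fl_ne _ hii] at h5, h6⟩
        rw [if_pos h4, if_pos h5]
      · rw [if_neg h4]
        exact Nat.zero_le _
    omega

end gadget

section product
variable {D : Type} [Fintype D] [DecidableEq D] {k : ℕ}

/-- the index on the product: the fibre coordinates come first -/
def ix (k : ℕ) (idx : D → ℕ) : D ⊕ Fin k → ℕ := Sum.elim (fun d => k + idx d) fun i => i.val

theorem bl_face {idx : D → ℕ} {o0 o1 : (D → Bool) → Finset D}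
    {G : (D → Bool) → (Fin k → Bool) → Finset (Fin k)} {B : ℕ} {w : D → Bool}
    {x : Fin k → Bool} (hx : ∀ i, x i = false) (h : Bl idx o1 B w) :
    Bl (ix k idx) (prod o0 o1 G) B (pr w x) := by
  induction B generalizing w with
  | zero =>
    change prod o0 o1 G (pr w x) = ∅
    rw [prod_pr_zero o0 o1 _ w x hx]
    have h' : o1 w = ∅ := h
    rw [h']
    rfl
  | succ B ih =>
    rcases h with h | ⟨i, h1, h2, h3⟩
    · refine Or.inl ?_
      rw [prod_pr_zero o0 o1 _ w x hx, h]
      rfl
    · refine Or.inr ⟨Sum.inl i, ?_, ?_, ?_⟩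
      · rw [prod_pr_zero o0 o1 _ w x hx]
        simpa using h1
      · intro j hj
        rw [prod_pr_zero o0 o1 _ w x hx] at hj
        rcases j with d | j
        · have hd : d ∈ o1 w := by simpa using hj
          simp only [ix, Sum.elim_inl]
          exact Nat.add_le_add_left (h2 d hd) k
        · simp at hj
      · rw [fl_pr_inl]
        exact ih h3

theorem bl_prod {idx : D → ℕ} {o0 o1 : (D → Bool) → Finset D}
    {κ : (D → Bool) → Fin k → ℕ} (hκ : ∀ w, Function.Injective (κ w)) {B : ℕ}
    (h : ∀ w, Bl idx o1 B w) (w : D → Bool) (x : Fin k → Bool) :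
    Bl (ix k idx) (prod o0 o1 fun w => K (κ w)) (B + 2 * k) (pr w x) := by
  have key : ∀ (c : ℕ) (x : Fin k → Bool), pot (κ w) x ≤ c →
      Bl (ix k idx) (prod o0 o1 fun w => K (κ w)) (B + c) (pr w x) := by
    intro c
    induction c with
    | zero =>
      intro x hx
      by_cases h0 : ∀ i, x i = false
      · exact bl_face h0 (h w)
      · obtain ⟨i, hi⟩ := K_nonempty (κ := κ w) x (by
          push Not at h0
          obtain ⟨i, hi⟩ := h0
          exact ⟨i, by simpa using hi⟩)
        have := pot_step (hκ w) hi
        omega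
    | succ c ih =>
      intro x hx
      by_cases h0 : ∀ i, x i = false
      · exact bl_mono (by omega) (bl_face h0 (h w))
      · have hne := K_nonempty (κ := κ w) x (by
          push Not at h0
          obtain ⟨i, hi⟩ := h0
          exact ⟨i, by simpa using hi⟩)
        obtain ⟨i, hi, hmin⟩ := (K (κ w) x).exists_min_image (fun i : Fin k => i.val) hne
        refine Or.inr ⟨Sum.inr i, ?_, ?_, ?_⟩
        · rw [prod_pr o0 o1 _ w x h0]
          simpa using hi
        · intro j hj
          rw [prod_pr o0 o1 _ w x h0] at hj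
          rcases j with d | j
          · simp only [ix, Sum.elim_inl, Sum.elim_inr]
            omega
          · have hj' : j ∈ K (κ w) x := by simpa using hj
            simp only [ix, Sum.elim_inr]
            exact hmin j hj'
        · rw [fl_pr_inr]
          have := pot_step (hκ w) hi
          exact ih _ (by omega)
  have h1 := pot_le (κ w) x
  rw [Fintype.card_fin] at h1
  exact key _ x h1

end product

section transport
variable {D D' : Type} [Fintype D] [DecidableEq D] [Fintype D'] [DecidableEq D'] (e : D ≃ D')

theorem bl_tro {idx : D → ℕ} {idx' : D' → ℕ} (he : ∀ d, idx' (e d) = idx d)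
    {o : (D → Bool) → Finset D} {B : ℕ} {v : D' → Bool} (h : Bl idx o B fun i => v (e i)) :
    Bl idx' (tro e o) B v := by
  induction B generalizing v with
  | zero =>
    change tro e o v = ∅
    unfold tro
    exact map_eq_empty.2 h
  | succ B ih =>
    rcases h with h | ⟨i, h1, h2, h3⟩
    · refine Or.inl ?_
      unfold tro
      exact map_eq_empty.2 h
    · refine Or.inr ⟨e i, ?_, ?_, ih ?_⟩
      · simpa [tro] using h1
      · intro j hj
        obtain ⟨j, rfl⟩ := e.surjective j
        rw [he, he]
        exact h2 j (by simpa [tro] using hj)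
      · rw [fl_comp]
        exact h3

end transport

end Pool.Agent.H73.BL
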