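import Pool.Agent.H73.BL.Bland
set_option autoImplicit false
set_option linter.unusedSectionVars false

/-!
# A family of orientations on which Bland's rule is fast and all rules with bounded odds are slow

This follows `TH2.BO.Main`, with the additional property of Bland's rule.
-/

namespace Pool.Agent.H73.BL

open Finset Pool.Agent.TH2.BO

/-- A family of orientations on which Bland's rule (for the indices `idx`) makes at most `B` steps from
everywhere, and every process needs at least `T` moves, up to the average probability `δ`. -/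
def GoodB (D : Type) [Fintype D] [DecidableEq D] (ρ : ℝ) (idx : D → ℕ) (T : ℕ) (δ : ℝ) (B : ℕ) :
    Prop :=
  ∃ (Ω : Type) (_ : Fintype Ω) (_ : Nonempty Ω) (o : Ω → (D → Bool) → Finset D) (s : D → Bool),
    (∀ ω, AU (o ω)) ∧ (∀ ω v, Bl idx (o ω) B v) ∧ ∀ (P : Proc D ρ) (m : P.M) (N : ℕ),
      ∑ ω, hit P (o ω) N T m s ≤ δ * Fintype.card Ω

section
variable {D : Type} [Fintype D] [DecidableEq D] {ρ : ℝ}

theorem GoodB_step (hρ : 1 ≤ ρ) {q : ℕ} (hq : 3 * ρ ≤ q) {idx : D → ℕ} {T B : ℕ} {δ : ℝ}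
    (hδ : 0 ≤ δ) (h : GoodB D ρ idx T δ B) :
    GoodB (D ⊕ Fin (4 * q)) ρ (ix (4 * q) idx) (T + T) (2 * δ + ((T + T : ℕ) + 1) * kap ρ q)
      (B + 2 * (4 * q)) := by
  classical
  obtain ⟨Ω, _, _, o, s, hAU, hBl, hb⟩ := h
  have hq0 : 0 < q := by
    rcases Nat.eq_zero_or_pos q with h | h
    · subst h; push_cast at hq; linarith
    · exact h
  haveI : NeZero (4 * q) := ⟨by omega⟩
  -- the sinks
  have hsink : ∀ ω, ∃ t : D → Bool, ∀ w, o ω w = ∅ ↔ w = t := by
    intro ω
    obtain ⟨t, ⟨_, ht⟩, hu⟩ := (hAU ω).sink univ s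
    refine ⟨t, fun w => ⟨fun hw => hu w ⟨fun i hi => absurd (mem_univ i) hi, fun i _ => by
      rw [hw]; simp⟩, fun hw => ?_⟩⟩
    rw [hw, eq_empty_iff_forall_notMem]
    exact fun i => ht i (mem_univ i)
  choose t ht using hsink
  set a : Ω → D → Bool := fun ω i => xor (t ω i) (s i) with ha
  have hxo : ∀ ω w, o ω w = ∅ → xo (a ω) w = s := by
    intro ω w hw
    rw [(ht ω w).1 hw]
    funext i
    simp only [xo, ha]
    cases t ω i <;> simp
  let C := (D → Bool) × Fin q → Fin (4 * q)
  refine ⟨Ω × Ω × C, inferInstance, inferInstance,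
    fun z => prod (o z.1) (fun v => o z.2.1 (xo (a z.1) v)) (Gc z.2.2),
    pr s (fun _ => true), ?_, ?_, ?_⟩
  · rintro ⟨ω, ω', c⟩
    apply AU_prod _ _ _ (hAU ω) (AU_xo _ _ (hAU ω')) (fun w => AU_K _ (rk_inj _))
    intro w
    exact K_zero _ _ (fun _ => rfl)
  · rintro ⟨ω, ω', c⟩ v
    have h1 : v = pr (fun d => v (Sum.inl d)) (fun i => v (Sum.inr i)) := by
      funext j
      rcases j with d | i <;> rfl
    rw [h1]
    exact bl_prod (κ := fun w => rk fun s => c (w, s)) (fun w => rk_inj _)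
      (fun w => bl_xo (a ω) (hBl ω' _)) _ _
  · intro P m N
    have hcard : (Fintype.card (Ω × Ω × C) : ℝ) =
        Fintype.card Ω * (Fintype.card Ω * Fintype.card C) := by
      rw [Fintype.card_prod, Fintype.card_prod]
      push_cast
      ring
    have hΩ : (0 : ℝ) ≤ Fintype.card Ω := Nat.cast_nonneg _
    have hC : (0 : ℝ) < Fintype.card C := by exact_mod_cast Fintype.card_pos
    have step : ∀ z : Ω × Ω × C,
        hit P (prod (o z.1) (fun v => o z.2.1 (xo (a z.1) v)) (Gc z.2.2)) N (T + T) m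
          (pr s (fun _ => true)) ≤
        prem P (o z.1) (Gc z.2.2) N (T + T) m s (fun _ => true) +
          hit (proj P (Gc z.2.2)) (o z.1) N T (pm P (Gc z.2.2) m s (fun _ => true)) s +
          sec P (o z.1) (fun v => o z.2.1 (xo (a z.1) v)) (Gc z.2.2) N T m s (fun _ => true) :=
      fun z => hit_le P _ _ _ (Gc_nonempty _) N T T m s _
    refine (sum_le_sum fun z _ => step z).trans ?_
    rw [sum_add_distrib, sum_add_distrib]
    -- premature
    have b1 : ∑ z : Ω × Ω × C, prem P (o z.1) (Gc z.2.2) N (T + T) m s (fun _ => true) ≤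
        ((T + T : ℕ) + 1) * kap ρ q * Fintype.card (Ω × Ω × C) := by
      have e : ∀ ω, ∑ c : C, prem P (o ω) (Gc c) N (T + T) m s (fun _ => true) ≤
          ((T + T : ℕ) + 1) * kap ρ q * Fintype.card C := by
        intro ω
        obtain ⟨f0, hf0⟩ := (hAU ω).obj
        have := S1_all hρ hq P (o ω) f0 hf0 N (T + T) m s (fun _ => true) 0 ∅ (fun _ => 0)
          (Nat.zero_le _) (fun w' s' h => absurd h (Set.notMem_empty _))
          (fun s' h => absurd h (Nat.not_lt_zero _)) (fun s' h => absurd h (Nat.not_lt_zero _))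
        rw [cav_empty, wt_true, Gx_top (by omega), Nat.sub_zero] at this
        rw [div_le_iff₀ (by exact_mod_cast Fintype.card_pos)] at this
        refine this.trans ?_
        apply mul_le_mul_of_nonneg_right _ hC.le
        have h3 : (0 : ℝ) < 1 / 3 ^ q := by positivity
        have h4 : (1 : ℝ) / 3 ^ q + lam ρ ^ q ≤ kap ρ q := by unfold kap; linarith
        linarith
      rw [Fintype.sum_prod_type]
      have e2 : ∀ ω, ∑ z : Ω × C, prem P (o ω) (Gc z.2) N (T + T) m s (fun _ => true) ≤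
          Fintype.card Ω * (((T + T : ℕ) + 1) * kap ρ q * Fintype.card C) := by
        intro ω
        rw [Fintype.sum_prod_type]
        simp only [sum_const, card_univ, nsmul_eq_mul]
        exact mul_le_mul_of_nonneg_left (e ω) hΩ
      refine (sum_le_sum fun ω _ => e2 ω).trans ?_
      rw [sum_const, card_univ, nsmul_eq_mul, hcard]
      apply le_of_eq
      ring
    have b2 : ∑ z : Ω × Ω × C, hit (proj P (Gc z.2.2)) (o z.1) N T
        (pm P (Gc z.2.2) m s (fun _ => true)) s ≤ δ * Fintype.card (Ω × Ω × C) := by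
      rw [Fintype.sum_prod_type]
      have e2 : ∀ ω, ∑ z : Ω × C, hit (proj P (Gc z.2)) (o ω) N T
          (pm P (Gc z.2) m s (fun _ => true)) s = Fintype.card Ω * ∑ c : C,
          hit (proj P (Gc c)) (o ω) N T (pm P (Gc c) m s (fun _ => true)) s := by
        intro ω
        rw [Fintype.sum_prod_type]
        simp only [sum_const, card_univ, nsmul_eq_mul]
      simp only [e2]
      rw [← mul_sum, sum_comm]
      have e3 : ∑ c : C, ∑ ω, hit (proj P (Gc c)) (o ω) N T (pm P (Gc c) m s (fun _ => true)) s ≤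
          ∑ _c : C, δ * Fintype.card Ω := sum_le_sum fun c _ => hb (proj P (Gc c)) _ N
      refine (mul_le_mul_of_nonneg_left e3 hΩ).trans ?_
      rw [sum_const, card_univ, nsmul_eq_mul, hcard]
      apply le_of_eq
      ring
    have b3 : ∑ z : Ω × Ω × C,
        sec P (o z.1) (fun v => o z.2.1 (xo (a z.1) v)) (Gc z.2.2) N T m s (fun _ => true) ≤
        δ * Fintype.card (Ω × Ω × C) := by
      rw [Fintype.sum_prod_type]
      have e2 : ∀ ω, ∑ z : Ω × C,
          sec P (o ω) (fun v => o z.1 (xo (a ω) v)) (Gc z.2) N T m s (fun _ => true) ≤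
          Fintype.card C * (δ * Fintype.card Ω) := by
        intro ω
        rw [Fintype.sum_prod_type, sum_comm]
        have e3 : ∀ c : C, ∑ ω', sec P (o ω) (fun v => o ω' (xo (a ω) v)) (Gc c) N T m s
            (fun _ => true) ≤ δ * Fintype.card Ω := by
          intro c
          exact sum_sec_le P (o ω) (Gc c) o (a ω) s T (by positivity) (hxo ω)
            (fun m N => hb (rest P) m N) N m s _
        refine (sum_le_sum fun c _ => e3 c).trans ?_
        rw [sum_const, card_univ, nsmul_eq_mul]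
      refine (sum_le_sum fun ω _ => e2 ω).trans ?_
      rw [sum_const, card_univ, nsmul_eq_mul, hcard]
      apply le_of_eq
      ring
    calc _ ≤ ((T + T : ℕ) + 1) * kap ρ q * Fintype.card (Ω × Ω × C) +
          δ * Fintype.card (Ω × Ω × C) + δ * Fintype.card (Ω × Ω × C) :=
          add_le_add (add_le_add b1 b2) b3
      _ = _ := by ring

theorem GoodB_base (d : ℕ) (hd : 1 ≤ d) (ρ : ℝ) :
    GoodB (Fin d) ρ (fun i => i.val) 1 0 d := by
  refine ⟨Unit, inferInstance, inferInstance, fun _ => up, fun _ => false, fun _ => AU_up,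
    fun _ v => bl_up d v, ?_⟩
  intro P m N
  have hne : up (fun _ : Fin d => false) ≠ ∅ := by
    intro h
    have : (⟨0, by omega⟩ : Fin d) ∈ up (fun _ : Fin d => false) := by simp [up]
    rw [h] at this
    simp at this
  have : ∀ m, hit P up N 1 m (fun _ => false) = 0 := by
    induction N with
    | zero => intro m; simp [hit, hne]
    | succ N ih =>
      intro m
      simp only [hit, if_neg hne, one_ne_zero, if_false, Nat.sub_self, hit_zero, ih, mul_zero,
        sum_const_zero, add_zero]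
  simp [this]

theorem GoodB_mono {idx : D → ℕ} {T T' B B' : ℕ} (hT : T' ≤ T) {δ δ' : ℝ} (h : δ ≤ δ')
    (hB : B ≤ B') (hg : GoodB D ρ idx T δ B) : GoodB D ρ idx T' δ' B' := by
  obtain ⟨Ω, i1, i2, o, s, hAU, hBl, hb⟩ := hg
  refine ⟨Ω, i1, i2, o, s, hAU, fun ω v => bl_mono hB (hBl ω v), fun P m N => ?_⟩
  refine (sum_le_sum fun ω _ => hit_mono P (o ω) N hT m s).trans ((hb P m N).trans ?_)
  exact mul_le_mul_of_nonneg_right h (Nat.cast_nonneg _)

/-- the iterated construction -/
theorem GoodB_iter (hρ : 1 ≤ ρ) {q : ℕ} (hq : 3 * ρ ≤ q) (d : ℕ) (hd : 1 ≤ d) (m : ℕ) :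
    ∃ (D : Type) (_ : Fintype D) (_ : DecidableEq D) (idx : D → ℕ),
      Fintype.card D = d + m * (4 * q) ∧ Function.Injective idx ∧
      (∀ x, idx x < d + m * (4 * q)) ∧
      GoodB D ρ idx (2 ^ m) (m * 2 ^ (m + 1) * kap ρ q) (d + m * (2 * (4 * q))) := by
  induction m with
  | zero =>
    refine ⟨Fin d, inferInstance, inferInstance, fun i => i.val, by simp, Fin.val_injective,
      fun x => by simp, ?_⟩
    have := GoodB_base d hd ρ
    simpa using this
  | succ m ih =>
    obtain ⟨D, i1, i2, idx, hc, hinj, hlt, hg⟩ := ih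
    have hk := kap_pos hρ q
    refine ⟨D ⊕ Fin (4 * q), inferInstance, inferInstance, ix (4 * q) idx, ?_, ?_, ?_, ?_⟩
    · rw [Fintype.card_sum, hc, Fintype.card_fin]; ring
    · rintro (x | x) (y | y) hxy
      · simp only [ix, Sum.elim_inl] at hxy
        exact congrArg Sum.inl (hinj (by omega))
      · simp only [ix, Sum.elim_inl, Sum.elim_inr] at hxy
        have := y.isLt
        omega
      · simp only [ix, Sum.elim_inl, Sum.elim_inr] at hxy
        have := x.isLt
        omega
      · simp only [ix, Sum.elim_inr] at hxy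
        exact congrArg Sum.inr (Fin.ext hxy)
    · rintro (x | x)
      · have h1 := hlt x
        simp only [ix, Sum.elim_inl]
        nlinarith
      · have h1 := x.isLt
        simp only [ix, Sum.elim_inr]
        nlinarith
    · have := GoodB_step hρ hq (by positivity) hg
      refine GoodB_mono (by rw [pow_succ]; omega) ?_ (by nlinarith) this
      push_cast
      have h1 : (1 : ℝ) ≤ 2 ^ m := one_le_pow₀ (by norm_num)
      have e : ((m : ℝ) + 1) * 2 ^ (m + 1 + 1) * kap ρ q =
          2 * (m * 2 ^ (m + 1) * kap ρ q) + (2 ^ m + 2 ^ m + 2 * 2 ^ m) * kap ρ q := by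
        rw [pow_succ, pow_succ]; ring
      rw [e]
      have : (2 ^ m + 2 ^ m + 1) * kap ρ q ≤ (2 ^ m + 2 ^ m + 2 * 2 ^ m) * kap ρ q := by
        apply mul_le_mul_of_nonneg_right _ hk.le
        linarith
      linarith

end

/-- The family on the `n`-cube. -/
theorem exists_family {ρ : ℝ} (hρ : 1 ≤ ρ) {n m : ℕ} (hm : 1 ≤ m)
    (hn : 60 * (1 + ρ) * m ^ 2 ≤ n) (x₀ : Fin n → Bool) :
    ∃ (Ω : Type) (_ : Fintype Ω) (_ : Nonempty Ω) (o : Ω → (Fin n → Bool) → Finset (Fin n)),
      (∀ ω, AU (o ω)) ∧ (∀ ω v, Bl (fun i : Fin n => i.val) (o ω) (2 * n) v) ∧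
      ∀ (P : Proc (Fin n) ρ) (k : P.M) (N : ℕ),
        ∑ ω, hit P (o ω) N (2 ^ m) k x₀ ≤ 1 / 2 ^ m * Fintype.card Ω := by
  have hmr : (1 : ℝ) ≤ m := by exact_mod_cast hm
  set q : ℕ := ⌈13 * (1 + ρ) * m⌉₊ with hq
  have hq1 : 13 * (1 + ρ) * m ≤ q := Nat.le_ceil _
  have hq2 : (q : ℝ) < 13 * (1 + ρ) * m + 1 := Nat.ceil_lt_add_one (by positivity)
  have h3 : 3 * ρ ≤ q := by
    refine le_trans ?_ hq1
    nlinarith
  have hle : m * (4 * q) + 1 ≤ n := by
    have : ((m * (4 * q) + 1 : ℕ) : ℝ) ≤ n := by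
      refine le_trans ?_ hn
      push_cast
      nlinarith [mul_pos (show (0 : ℝ) < m by linarith) (show (0 : ℝ) < 1 + ρ by linarith)]
    exact_mod_cast this
  obtain ⟨D, i1, i2, idx, hc, hinj, hlt, hg⟩ := GoodB_iter hρ h3 (n - m * (4 * q)) (by omega) m
  have hcn : Fintype.card D = n := by rw [hc]; omega
  -- the bijection given by the indices
  have hlt' : ∀ x, idx x < n := fun x => (hlt x).trans_le (by omega)
  have hbij : Function.Bijective (fun x : D => (⟨idx x, hlt' x⟩ : Fin n)) := by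
    rw [Fintype.bijective_iff_injective_and_card]
    refine ⟨fun x y h => hinj (by simpa using h), by rw [hcn, Fintype.card_fin]⟩
  obtain ⟨e, he⟩ : ∃ e : D ≃ Fin n, ∀ x, (e x).val = idx x :=
    ⟨Equiv.ofBijective _ hbij, fun x => rfl⟩
  obtain ⟨Ω, j1, j2, o, s, hAU, hBl, hb⟩ := GoodB_mono le_rfl (kap_small hρ hm hq1) le_rfl hg
  set s' : Fin n → Bool := fun i => s (e.symm i) with hs'
  set a : Fin n → Bool := fun i => xor (s' i) (x₀ i) with ha
  have hxo : xo a x₀ = s' := by
    funext i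
    simp only [xo, ha]
    cases s' i <;> cases x₀ i <;> rfl
  refine ⟨Ω, j1, j2, fun ω v => tro e (o ω) (xo a v), fun ω => AU_xo _ _ (AU_tro e _ (hAU ω)),
    fun ω v => ?_, fun P k N => ?_⟩
  · refine bl_mono ?_ (bl_xo (o := tro e (o ω)) a (bl_tro e (idx' := fun i : Fin n => i.val) he
      (hBl ω _)))
    have : m * (2 * (4 * q)) = 2 * (m * (4 * q)) := by ring
    omega
  · refine le_of_eq_of_le (sum_congr rfl fun ω _ => ?_) (hb (trp e P) k N)
    refine (hit_xo P (tro e (o ω)) a N (2 ^ m) k x₀).trans ?_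
    rw [hxo]
    refine (hit_tro e P (o ω) N (2 ^ m) k _).trans ?_
    simp [hs']

end Pool.Agent.H73.BL
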